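import Pool.Agent.R679.FSub

namespace Pool.Agent.Results.MP_df6457_lc.InfinitelyMany

open Pool.Agent.R679.FSub FreeMonoid

/-- letters: `false` is `a`, `true` is `b`. State = number of trailing `b`'s, `3` is dead. -/
def step (s : Fin 4) (c : Bool) : Fin 4 :=
  if s = 3 then 3 else if c then s + 1 else 0

def dfa : DFA Bool (Fin 4) where
  step := step
  start := 0
  accept := {s | s ≠ 3}

/-- `L`: the words over `{a, b}` without factor `bbb`. -/
def L : Language Bool := dfa.accepts

def run (s : Fin 4) (w : List Bool) : Fin 4 := dfa.evalFrom s w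

lemma run_nil (s : Fin 4) : run s [] = s := rfl
lemma run_cons (s : Fin 4) (c : Bool) (w : List Bool) : run s (c :: w) = run (step s c) w := rfl
lemma run_append (s : Fin 4) (u v : List Bool) : run s (u ++ v) = run (run s u) v :=
  dfa.evalFrom_of_append s u v

lemma mem_L (w : List Bool) : w ∈ L ↔ run 0 w ≠ 3 := Iff.rfl

lemma step_mono : ∀ s t : Fin 4, s ≤ t → ∀ c, step s c ≤ step t c := by decide

lemma step_three : ∀ c, step 3 c = 3 := by decide

lemma run_three (w : List Bool) : run 3 w = 3 := by
  induction w with
  | nil => rfl
  | cons c w ih => rw [run_cons, step_three, ih]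

lemma run_mono (w : List Bool) : ∀ s t : Fin 4, s ≤ t → run s w ≤ run t w := by
  induction w with
  | nil => intro s t h; exact h
  | cons c w ih => intro s t h; rw [run_cons, run_cons]; exact ih _ _ (step_mono s t h c)

lemma L_factorial : Factorial L := by
  rintro w hw u ⟨x, y, rfl⟩
  rw [mem_L] at hw ⊢
  rw [run_append, run_append] at hw
  intro h
  apply hw
  have h1 : run (run 0 x) u = 3 := by
    have := run_mono u 0 (run 0 x) (Fin.zero_le _)
    rw [h] at this
    exact le_antisymm (Fin.le_last _) this
  rw [h1, run_three]

lemma L_transitive : Transitive L := by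
  intro u hu v hv
  refine ⟨[false], ?_⟩
  rw [mem_L] at *
  rw [run_append, run_append]
  have : run (run 0 u) [false] = 0 := by
    rw [run_cons, run_nil]
    revert hu
    generalize run 0 u = s
    revert s
    decide
  rw [this]
  exact hv

lemma L_ftr : IsFTR L := ⟨L_factorial, L_transitive, ⟨Fin 4, inferInstance, dfa, rfl⟩⟩

/-- the three generators `ab`, `ba`, `a^p` -/
def gens (p : ℕ) : Set (FreeMonoid Bool) :=
  {ofList [false, true], ofList [true, false], of false ^ p}

def N (p : ℕ) : Submonoid (FreeMonoid Bool) := Submonoid.closure (gens p)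

lemma toList_pow (p : ℕ) : toList (of false ^ p : FreeMonoid Bool) = List.replicate p false := by
  induction p with
  | zero => rfl
  | succ n ih => rw [pow_succ', toList_mul, ih, toList_of]; rfl

/-- prefix comparison: two generators that are prefixes of a common word are equal -/
lemma prefix_code {p : ℕ} (hp : 2 ≤ p) : ∀ g ∈ gens p, ∀ h ∈ gens p, ∀ z, h = g * z → z = 1 := by
  obtain ⟨k, rfl⟩ : ∃ k, p = k + 2 := ⟨p - 2, by omega⟩
  intro g hg h hh z hz
  have hz' := congrArg toList hz
  rw [toList_mul] at hz'
  have hrep : toList (of false ^ (k + 2) : FreeMonoid Bool) =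
      false :: false :: List.replicate k false := by
    rw [toList_pow]; rfl
  have hl := congrArg List.length hz'
  rw [List.length_append] at hl
  rcases hg with rfl | rfl | rfl <;> rcases hh with rfl | rfl | rfl
  all_goals
    simp only [toList_ofList, hrep, List.cons_append, List.nil_append, List.cons.injEq,
      reduceCtorEq, false_and, and_false, true_and, List.length_cons, List.length_nil,
      List.length_replicate, Bool.true_eq_false, Bool.false_eq_true] at hz' hl
  all_goals
    first
    | (apply toList.injective; exact hz'.symm)
    | (have : (toList z).length = 0 := by omega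
       exact toList.injective (List.eq_nil_of_length_eq_zero this))

lemma gens_ne_one {p : ℕ} (hp : 2 ≤ p) : ∀ g ∈ gens p, g ≠ 1 := by
  intro g hg h1
  rcases hg with rfl | rfl | rfl
  · exact absurd (congrArg FreeMonoid.length h1) (by decide)
  · exact absurd (congrArg FreeMonoid.length h1) (by decide)
  · have := congrArg (fun x => (toList x).length) h1
    simp only [toList_pow, List.length_replicate] at this
    change p = 0 at this
    omega

lemma N_leftUnitary {p : ℕ} (hp : 2 ≤ p) (u w : FreeMonoid Bool) (hu : u ∈ N p)
    (huw : u * w ∈ N p) : w ∈ N p := by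
  induction hu using Submonoid.closure_induction_left with
  | one => simpa using huw
  | mul_left g hg y hy ih =>
    apply ih
    rw [mul_assoc] at huw
    generalize hq : g * (y * w) = q at huw
    induction huw using Submonoid.closure_induction_left with
    | one =>
      exfalso
      have := congrArg FreeMonoid.length hq
      rw [FreeMonoid.length_mul, FreeMonoid.length_one] at this
      have := length_pos_of_ne_one (gens_ne_one hp g hg)
      omega
    | mul_left h hh x hx _ =>
      rcases comparable hq with ⟨z, h1, h2⟩ | ⟨z, h1, h2⟩
      · have hz := prefix_code hp g hg h hh z h1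
        rw [hz, one_mul] at h2
        rw [h2]; exact hx
      · have hz := prefix_code hp h hh g hg z h1
        rw [hz, one_mul] at h2
        rw [← h2]; exact hx

lemma N_free {p : ℕ} (hp : 2 ≤ p) : IsFreeSub (N p) :=
  free_of_stable (stable_of_leftUnitary (N_leftUnitary hp))

lemma run_replicate (s : Fin 4) (hs : s ≤ 1) (p : ℕ) (hp : 1 ≤ p) :
    run s (List.replicate p false) = 0 := by
  induction p, hp using Nat.le_induction generalizing s with
  | base =>
    revert s; decide
  | succ n _ ih =>
    rw [List.replicate_succ, run_cons]
    apply ih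
    revert s; decide

lemma N_inside {p : ℕ} (hp : 2 ≤ p) : Inside (N p) L := by
  have key : ∀ w ∈ N p, ∀ s : Fin 4, s ≤ 1 → run s (toList w) ≤ 1 := by
    intro w hw
    induction hw using Submonoid.closure_induction with
    | one => intro s hs; exact hs
    | mem x hx =>
      rcases hx with rfl | rfl | rfl
      · intro s; revert s; decide
      · intro s; revert s; decide
      · intro s hs
        rw [toList_pow, run_replicate s hs p (by omega)]
        decide
    | mul x y _ _ ihx ihy =>
      intro s hs
      rw [toList_mul, run_append]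
      exact ihy _ (ihx s hs)
  intro w hw
  rw [mem_L]
  have := key w hw 0 (by decide)
  intro h
  rw [h] at this
  exact absurd this (by decide)

lemma not_both {M : Submonoid (FreeMonoid Bool)} (hM : IsMaxFreeIn L M) {p q : ℕ}
    (hp : p.Prime) (hq : q.Prime) (hpq : p ≠ q) (h1 : N p ≤ M) (h2 : N q ≤ M) : False := by
  have hst := Stable_of_free hM.1.1
  have hap : (of false : FreeMonoid Bool) ^ p ∈ M :=
    h1 (Submonoid.subset_closure (by simp [gens]))
  have haq : (of false : FreeMonoid Bool) ^ q ∈ M :=
    h2 (Submonoid.subset_closure (by simp [gens]))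
  have hab : (ofList [false, true] : FreeMonoid Bool) ∈ M :=
    h1 (Submonoid.subset_closure (by simp [gens]))
  have hba : (ofList [true, false] : FreeMonoid Bool) ∈ M :=
    h1 (Submonoid.subset_closure (by simp [gens]))
  have hcop : Nat.Coprime p q := (Nat.coprime_primes hp hq).2 hpq
  obtain ⟨m, _, hm⟩ := Nat.exists_mul_mod_eq_one_of_coprime hcop hq.one_lt
  have hdecomp : p * m = q * (p * m / q) + 1 := by
    have := Nat.div_add_mod (p * m) q
    omega
  have ha : (of false : FreeMonoid Bool) ∈ M := by
    have e1 : (of false : FreeMonoid Bool) ^ (p * m) ∈ M := by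
      rw [pow_mul]; exact pow_mem hap m
    have e2 : (of false : FreeMonoid Bool) ^ (q * (p * m / q)) ∈ M := by
      rw [pow_mul]; exact pow_mem haq _
    apply hst _ _ _ e2 e2
    · rw [← pow_succ, ← hdecomp]; exact e1
    · rw [← pow_succ', ← hdecomp]; exact e1
  have hb : (of true : FreeMonoid Bool) ∈ M := hst _ _ _ ha ha hab hba
  have hbbb : (of true : FreeMonoid Bool) ^ 3 ∈ M := pow_mem hb 3
  have := hM.1.2 _ hbbb
  rw [mem_L] at this
  exact this (by decide)

/-- There is an FTR language over a two-letter alphabet that contains infinitely many distinct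
maximal free submonoids. -/
theorem result : ∃ L : Language Bool, IsFTR L ∧
    {M : Submonoid (FreeMonoid Bool) | IsMaxFreeIn L M}.Infinite := by
  refine ⟨L, L_ftr, ?_⟩
  have hex : ∀ p : Nat.Primes, ∃ M, N p ≤ M ∧ IsMaxFreeIn L M := fun p =>
    exists_max_free L (N p) (N_free p.2.two_le) (N_inside p.2.two_le)
  choose f hf1 hf2 using hex
  haveI : Infinite Nat.Primes := Nat.Primes.infinite
  apply Set.infinite_of_injective_forall_mem (f := f)
  · intro p q hpq
    by_contra hne
    exact not_both (hf2 p) p.2 q.2 (fun h => hne (Subtype.ext h)) (hf1 p) (hpq ▸ hf1 q)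
  · exact hf2

end Pool.Agent.Results.MP_df6457_lc.InfinitelyMany
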